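import Pool.Agent.Q257.Lap.Balanced

set_option autoImplicit false

/-!
# No balanced digraph has Laplacian spread strictly between 0 and 1
-/

namespace Pool.Agent.Results.MP_6838a0_co.NoSmallSpread

open Pool.Agent.Q257.Lap

/-- A digraph on `Fin n` without loops (given by its arc relation) is balanced if every vertex has as
many out-neighbours as in-neighbours. -/
def Balanced {n : ℕ} (E : Fin n → Fin n → Prop) : Prop :=
  ∀ i, {j | E i j}.ncard = {j | E j i}.ncard

/-- No balanced digraph of any order `n ≥ 2` has Laplacian spread strictly between `0` and `1`. -/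
theorem result : ∀ (n : ℕ) (_ : 2 ≤ n) (E : Fin n → Fin n → Prop), (∀ i, ¬ E i i) → Balanced E →
    ¬ (0 < spread E ∧ spread E < 1) := by
  intro n hn E hE hb ⟨h0, h1⟩
  rcases dichotomy hn E hE (bal_of_ncard E hb) h1.le with h | h
  · exact h0.ne' h
  · exact absurd h.1 (not_le.2 h1)

end Pool.Agent.Results.MP_6838a0_co.NoSmallSpread
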